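import Pool.Agent.Lib.MP_fa837f_gt.P2.Iface

/-!
Project P2, row EF: the final inequality from E1, E2, E3.
-/

set_option autoImplicit false

open MeasureTheory Matrix Set Filter Topology

namespace Pool.Agent.Lib.MP_fa837f_gt.P2.H56

/-- Continuous and polynomially bounded. -/
def CP {k : ℕ} (f : Pt k → ℝ) : Prop := Continuous f ∧ PB f

variable {k : ℕ}

lemma pb_nonneg {f : Pt k → ℝ} (h : PB f) :
    ∃ C : ℝ, 0 ≤ C ∧ ∃ N : ℕ, ∀ y, |f y| ≤ C * (1 + ‖y‖) ^ N := by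
  obtain ⟨C, N, h⟩ := h
  refine ⟨|C|, abs_nonneg _, N, fun y => (h y).trans ?_⟩
  exact mul_le_mul_of_nonneg_right (le_abs_self C) (by positivity)

lemma CP.mul {f g : Pt k → ℝ} (hf : CP f) (hg : CP g) : CP fun y => f y * g y := by
  refine ⟨hf.1.mul hg.1, ?_⟩
  obtain ⟨C, hC, N, h⟩ := pb_nonneg hf.2
  obtain ⟨C', hC', N', h'⟩ := pb_nonneg hg.2
  refine ⟨C * C', N + N', fun y => ?_⟩
  rw [abs_mul, pow_add]
  have h1 := h y
  have h2 := h' y
  calc |f y| * |g y| ≤ (C * (1 + ‖y‖) ^ N) * (C' * (1 + ‖y‖) ^ N') :=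
        mul_le_mul h1 h2 (abs_nonneg _) (by positivity)
    _ = C * C' * ((1 + ‖y‖) ^ N * (1 + ‖y‖) ^ N') := by ring

lemma CP.add {f g : Pt k → ℝ} (hf : CP f) (hg : CP g) : CP fun y => f y + g y := by
  refine ⟨hf.1.add hg.1, ?_⟩
  obtain ⟨C, hC, N, h⟩ := pb_nonneg hf.2
  obtain ⟨C', hC', N', h'⟩ := pb_nonneg hg.2
  refine ⟨C + C', N + N', fun y => ?_⟩
  have h1 := h y
  have h2 := h' y
  have h0 : (1 : ℝ) ≤ 1 + ‖y‖ := by linarith [norm_nonneg y]
  have e1 : (1 + ‖y‖) ^ N ≤ (1 + ‖y‖) ^ (N + N') := pow_le_pow_right₀ h0 (by omega)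
  have e2 : (1 + ‖y‖) ^ N' ≤ (1 + ‖y‖) ^ (N + N') := pow_le_pow_right₀ h0 (by omega)
  calc |f y + g y| ≤ |f y| + |g y| := abs_add_le _ _
    _ ≤ C * (1 + ‖y‖) ^ N + C' * (1 + ‖y‖) ^ N' := add_le_add h1 h2
    _ ≤ C * (1 + ‖y‖) ^ (N + N') + C' * (1 + ‖y‖) ^ (N + N') :=
        add_le_add (mul_le_mul_of_nonneg_left e1 hC) (mul_le_mul_of_nonneg_left e2 hC')
    _ = (C + C') * (1 + ‖y‖) ^ (N + N') := by ring

lemma CP.const (a : ℝ) : CP fun _ : Pt k => a :=
  ⟨continuous_const, |a|, 0, fun y => by simp⟩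

lemma CP.sum {ι : Type} (s : Finset ι) {f : ι → Pt k → ℝ} (h : ∀ i ∈ s, CP (f i)) :
    CP fun y => ∑ i ∈ s, f i y := by
  classical
  induction s using Finset.induction_on with
  | empty => simpa using CP.const (k := k) 0
  | insert a s ha ih =>
    have := (h a (Finset.mem_insert_self a s)).add
      (ih fun i hi => h i (Finset.mem_insert_of_mem hi))
    simpa [Finset.sum_insert ha] using this

lemma CP.of_tame {f : Pt k → ℝ} (h : Tame f) : CP f := ⟨h.smooth.continuous, h.bd⟩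

/-- EF. -/
theorem ef (hWA : WaStatement) (hWB : WbStatement) (hSL : SlStatement) (hTS : TsStatement)
    (hIN : InStatement) (hE1 : E1Statement) (hE2 : E2Statement) (hE3 : E3Statement) :
    EfStatement := by
  intro n k S τ
  have LF := hSL n k S
  have TF := hTS n k S τ
  have hr : ∀ y i, 0 < S.r y i := LF.rpos
  have hρ : ∀ y, 0 < S.rho y := fun y =>
    mul_pos (hWA n k S.m (S.r y) S.hm (hr y)).posdef.det_pos (Real.exp_pos _)
  have hWb : ∀ y, AFacts S.m τ (S.r y) := fun y => hWB n k S.m τ (S.r y) S.hm (hr y)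
  -- closure facts
  have ca : CP fun y => aa S.m τ (S.r y) := CP.of_tame TF.taa
  have cr : ∀ i, CP fun y => S.r y i := fun i => CP.of_tame (TF.tr i)
  have cal : ∀ i j, CP fun y => al S.m τ (S.r y) i j := fun i j => CP.of_tame (TF.tal i j)
  have cY : ∀ i c, CP fun y => Yv S.m y i c := fun i c => CP.of_tame (TF.tY i c)
  have cLi : ∀ i, CP fun y => (S.L y i)⁻¹ := fun i => CP.of_tame (TF.tLi i)
  have cG : ∀ i j, CP fun y => Gm S.m y i j := fun i j =>
    CP.sum Finset.univ fun c _ => (cY i c).mul (cY j c)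
  have ca2 : CP fun y => aa S.m τ (S.r y) ^ 2 := by
    have := ca.mul ca
    simpa [pow_two] using this
  have ct : CP fun y => tt S.m τ (S.r y) := by
    unfold tt
    exact CP.sum Finset.univ fun i _ => ((CP.const (τ i)).mul (cr i)).mul (cal i i)
  have cYd : CP fun y => S.Yd τ y := by
    have h1 : CP fun y => (-S.δ) * ∑ i, S.r y i * al S.m τ (S.r y) i i *
        (∑ j, al S.m τ (S.r y) i j * S.r y j * Gm S.m y j i) * (S.L y i)⁻¹ :=
      (CP.const (-S.δ)).mul (CP.sum Finset.univ fun i _ =>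
        (((cr i).mul (cal i i)).mul (CP.sum Finset.univ fun j _ =>
          ((cal i j).mul (cr j)).mul (cG j i))).mul (cLi i))
    have h2 : (fun y => S.Yd τ y) = fun y => (-S.δ) * ∑ i, S.r y i * al S.m τ (S.r y) i i *
        (∑ j, al S.m τ (S.r y) i j * S.r y j * Gm S.m y j i) * (S.L y i)⁻¹ := by
      funext y
      simp only [Sys.Yd, div_eq_mul_inv, neg_mul]
    rw [h2]; exact h1
  have ia2 := hIN n k S _ ca2.1 ca2.2
  have it := hIN n k S _ ct.1 ct.2
  have iYd := hIN n k S _ cYd.1 cYd.2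
  -- splitting the integral
  have hsplit : ∫ y, (aa S.m τ (S.r y) ^ 2 - 2 * tt S.m τ (S.r y) + 2 * S.Yd τ y) * S.rho y =
      (∫ y, aa S.m τ (S.r y) ^ 2 * S.rho y) - 2 * (∫ y, tt S.m τ (S.r y) * S.rho y) +
        2 * ∫ y, S.Yd τ y * S.rho y := by
    have e : (fun y => (aa S.m τ (S.r y) ^ 2 - 2 * tt S.m τ (S.r y) + 2 * S.Yd τ y) * S.rho y) =
        fun y => (aa S.m τ (S.r y) ^ 2 * S.rho y - 2 * (tt S.m τ (S.r y) * S.rho y)) +
          2 * (S.Yd τ y * S.rho y) := by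
      funext y; ring
    have i1 : Integrable fun y => aa S.m τ (S.r y) ^ 2 * S.rho y -
        2 * (tt S.m τ (S.r y) * S.rho y) := ia2.sub (it.const_mul 2)
    have i2 : Integrable fun y => 2 * (S.Yd τ y * S.rho y) := iYd.const_mul 2
    have i3 : Integrable fun y => 2 * (tt S.m τ (S.r y) * S.rho y) := it.const_mul 2
    rw [e, integral_add i1 i2, integral_sub ia2 i3, integral_const_mul, integral_const_mul]
  -- signs
  have hZ : 0 ≤ ∫ y, S.rho y := integral_nonneg fun y => (hρ y).le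
  have hX : 0 ≤ ∫ y, S.X1d τ y * S.rho y := by
    refine integral_nonneg fun y => mul_nonneg ?_ (hρ y).le
    exact Finset.sum_nonneg fun i _ =>
      div_nonneg (mul_nonneg (hr y i).le (sq_nonneg _)) (LF.Lpos y i).le
  have ht : 0 ≤ ∫ y, tt S.m τ (S.r y) * S.rho y := by
    refine integral_nonneg fun y => mul_nonneg ?_ (hρ y).le
    rw [← (hWb y).altt]
    exact Finset.sum_nonneg fun i _ => Finset.sum_nonneg fun j _ =>
      mul_nonneg (mul_nonneg (hr y i).le (hr y j).le) (sq_nonneg _)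
  have h1 := hE1 n k S τ
  have h2 := hE2 n k S τ
  have h3 := hE3 n k S τ
  rw [hsplit]
  have hd0 := S.hδ0
  have hd1 := S.hδ1
  generalize (∫ y, aa S.m τ (S.r y) ^ 2 * S.rho y) = A2 at *
  generalize (∫ y, aa S.m τ (S.r y) * S.rho y) = A1 at *
  generalize (∫ y, tt S.m τ (S.r y) * S.rho y) = T at *
  generalize (∫ y, S.Yd τ y * S.rho y) = Y at *
  generalize (∫ y, S.X1d τ y * S.rho y) = X at *
  generalize (∫ y, S.Sd τ y * S.rho y) = Q at *
  generalize (∫ y, S.rho y) = Z at *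
  generalize S.δ = δ at *
  have hQ : δ ^ 2 * Q ≤ 2 * T := by
    have a1 : Q ≤ 8 * T := by nlinarith
    rcases le_or_gt Q 0 with hq | hq
    · nlinarith [sq_nonneg δ]
    · nlinarith [mul_nonneg hd0.le hq.le, mul_nonneg (sub_nonneg.2 hd1) hq.le]
  have hb : 4 * δ ^ 2 * X - 2 * T + 2 * Y ≤ 0 := by
    have : 4 * δ ^ 2 * X - δ * X ≤ 0 := by
      have : 4 * δ ^ 2 - δ ≤ 0 := by nlinarith
      nlinarith
    linarith
  have hfin := mul_nonneg hZ (neg_nonneg.2 hb)
  nlinarith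

end Pool.Agent.Lib.MP_fa837f_gt.P2.H56
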